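import Mathlib

/-!
# UG, blocks R1, R2, R4, R5: sums over squarefree numbers composed of a finite set of primes

`A P g K = ∑_{S ⊆ P, |S| ≤ K} ∏_{p ∈ S} g p`.
-/

set_option autoImplicit false

namespace Pool.Agent.Helper36.UG

open Finset

/-- Truncated product. -/
noncomputable def A (P : Finset ℕ) (g : ℕ → ℝ) (K : ℕ) : ℝ :=
  ∑ S ∈ P.powerset, if S.card ≤ K then ∏ p ∈ S, g p else 0

/-- Elementary symmetric function. -/
noncomputable def ek (P : Finset ℕ) (g : ℕ → ℝ) (k : ℕ) : ℝ := ∑ S ∈ P.powersetCard k, ∏ p ∈ S, g p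

theorem ek_nonneg {P : Finset ℕ} {g : ℕ → ℝ} (hg : ∀ p ∈ P, 0 ≤ g p) (k : ℕ) : 0 ≤ ek P g k := by
  unfold ek
  refine Finset.sum_nonneg fun S hS => Finset.prod_nonneg fun p hp => hg p ?_
  exact (Finset.mem_powersetCard.1 hS).1 hp

theorem A_nonneg {P : Finset ℕ} {g : ℕ → ℝ} (hg : ∀ p ∈ P, 0 ≤ g p) (K : ℕ) : 0 ≤ A P g K := by
  unfold A
  refine Finset.sum_nonneg fun S hS => ?_
  split_ifs
  · exact Finset.prod_nonneg fun p hp => hg p (Finset.mem_powerset.1 hS hp)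
  · exact le_rfl

theorem A_succ (P : Finset ℕ) (g : ℕ → ℝ) (K : ℕ) : A P g (K + 1) = A P g K + ek P g (K + 1) := by
  unfold A ek
  have h : P.powersetCard (K + 1) = P.powerset.filter fun S => S.card = K + 1 := by
    ext S
    simp [Finset.mem_powersetCard]
  rw [h, Finset.sum_filter, ← Finset.sum_add_distrib]
  refine Finset.sum_congr rfl fun S _ => ?_
  rcases lt_trichotomy S.card (K + 1) with h1 | h1 | h1
  · rw [if_pos h1.le, if_pos (by omega), if_neg (by omega), add_zero]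
  · rw [if_pos h1.le, if_neg (by omega), if_pos h1, zero_add]
  · rw [if_neg (by omega), if_neg (by omega), if_neg (by omega), add_zero]

theorem ek_zero (P : Finset ℕ) (g : ℕ → ℝ) : ek P g 0 = 1 := by
  unfold ek
  simp

theorem A_zero (P : Finset ℕ) (g : ℕ → ℝ) : A P g 0 = 1 := by
  unfold A
  rw [Finset.sum_eq_single ∅]
  · simp
  · intro S _ hS
    rw [if_neg]
    intro h
    exact hS (Finset.card_eq_zero.1 (Nat.le_zero.1 h))
  · intro h
    exact absurd (Finset.empty_mem_powerset P) h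

theorem one_le_A {P : Finset ℕ} {g : ℕ → ℝ} (hg : ∀ p ∈ P, 0 ≤ g p) (K : ℕ) : 1 ≤ A P g K := by
  induction K with
  | zero => rw [A_zero]
  | succ K ih => rw [A_succ]; linarith [ek_nonneg hg (K + 1)]

/-- `K e_K ≤ μ e_(K-1)`. -/
theorem ek_step {P : Finset ℕ} {g : ℕ → ℝ} (hg : ∀ p ∈ P, 0 ≤ g p) (K : ℕ) :
    ((K : ℝ) + 1) * ek P g (K + 1) ≤ (∑ p ∈ P, g p) * ek P g K := by
  have h1 : ((K : ℝ) + 1) * ek P g (K + 1) =
      ∑ S ∈ P.powersetCard (K + 1), ∑ p ∈ P, if p ∈ S then g p * ∏ q ∈ S.erase p, g q else 0 := by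
    unfold ek
    rw [Finset.mul_sum]
    refine Finset.sum_congr rfl fun S hS => ?_
    obtain ⟨hSP, hSc⟩ := Finset.mem_powersetCard.1 hS
    have h2 : ∑ p ∈ P, (if p ∈ S then g p * ∏ q ∈ S.erase p, g q else 0) =
        ∑ p ∈ S, ∏ q ∈ S, g q := by
      rw [← Finset.sum_filter]
      have h3 : P.filter (fun p => p ∈ S) = S := by
        ext p
        simp only [Finset.mem_filter]
        exact ⟨fun h => h.2, fun h => ⟨hSP h, h⟩⟩
      rw [h3]
      exact Finset.sum_congr rfl fun p hp => Finset.mul_prod_erase S g hp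
    rw [h2, Finset.sum_const, hSc, nsmul_eq_mul]
    push_cast
    ring
  rw [h1, Finset.sum_comm, Finset.sum_mul]
  refine Finset.sum_le_sum fun p hp => ?_
  rw [← Finset.sum_filter, ← Finset.mul_sum]
  refine mul_le_mul_of_nonneg_left ?_ (hg p hp)
  unfold ek
  have hinj : Set.InjOn (fun S : Finset ℕ => S.erase p)
      ((P.powersetCard (K + 1)).filter (fun S => p ∈ S) : Set (Finset ℕ)) := by
    intro S hS S' hS' h
    have hpS : p ∈ S := (Finset.mem_filter.1 (Finset.mem_coe.1 hS)).2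
    have hpS' : p ∈ S' := (Finset.mem_filter.1 (Finset.mem_coe.1 hS')).2
    have : insert p (S.erase p) = insert p (S'.erase p) := by
      simp only at h
      rw [h]
    rwa [Finset.insert_erase hpS, Finset.insert_erase hpS'] at this
  calc ∑ S ∈ (P.powersetCard (K + 1)).filter (fun S => p ∈ S), ∏ q ∈ S.erase p, g q
      = ∑ S ∈ ((P.powersetCard (K + 1)).filter (fun S => p ∈ S)).image (fun S => S.erase p), ∏ q ∈ S, g q := by
        rw [Finset.sum_image hinj]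
    _ ≤ ∑ S ∈ P.powersetCard K, ∏ q ∈ S, g q := by
        refine Finset.sum_le_sum_of_subset_of_nonneg ?_ ?_
        · intro S hS
          obtain ⟨S', hS', rfl⟩ := Finset.mem_image.1 hS
          obtain ⟨hS1, hS2⟩ := Finset.mem_filter.1 hS'
          obtain ⟨hS3, hS4⟩ := Finset.mem_powersetCard.1 hS1
          refine Finset.mem_powersetCard.2 ⟨(Finset.erase_subset _ _).trans hS3, ?_⟩
          rw [Finset.card_erase_of_mem hS2, hS4]
          rfl
        · intro S hS _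
          exact Finset.prod_nonneg fun q hq => hg q ((Finset.mem_powersetCard.1 hS).1 hq)

/-- `e_K ≤ ρ A_(K-1)` when `μ ≤ ρ K`. -/
theorem ek_le_A {P : Finset ℕ} {g : ℕ → ℝ} (hg : ∀ p ∈ P, 0 ≤ g p) {K : ℕ} {ρ : ℝ} (hρ : 0 ≤ ρ)
    (h : ∑ p ∈ P, g p ≤ ρ * ((K : ℝ) + 1)) : ek P g (K + 1) ≤ ρ * A P g K := by
  have h1 := ek_step hg K
  have h2 : ek P g K ≤ A P g K := by
    cases K with
    | zero => rw [ek_zero, A_zero]
    | succ K => rw [A_succ]; linarith [A_nonneg hg K]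
  have h3 := ek_nonneg hg K
  have hK : (0:ℝ) < (K : ℝ) + 1 := by positivity
  have h4 : ((K : ℝ) + 1) * ek P g (K + 1) ≤ ((K : ℝ) + 1) * (ρ * ek P g K) := by
    calc ((K : ℝ) + 1) * ek P g (K + 1) ≤ (∑ p ∈ P, g p) * ek P g K := h1
      _ ≤ (ρ * ((K : ℝ) + 1)) * ek P g K := mul_le_mul_of_nonneg_right h h3
      _ = _ := by ring
  have h5 : ek P g (K + 1) ≤ ρ * ek P g K := le_of_mul_le_mul_left h4 hK
  exact h5.trans (mul_le_mul_of_nonneg_left h2 hρ)

/-- `e_k ≤ 2^(K-k) e_K` beyond `K`. -/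
theorem ek_tail {P : Finset ℕ} {g : ℕ → ℝ} (hg : ∀ p ∈ P, 0 ≤ g p) {K : ℕ}
    (h : ∑ p ∈ P, g p ≤ 1 / 2 * ((K : ℝ) + 1)) (j : ℕ) : ek P g (K + j) ≤ (1 / 2) ^ j * ek P g K := by
  induction j with
  | zero => simp
  | succ j ih =>
    have h1 := ek_step hg (K + j)
    have h3 := ek_nonneg hg (K + j)
    have hK : (0:ℝ) < ((K + j : ℕ) : ℝ) + 1 := by positivity
    have h2 : ∑ p ∈ P, g p ≤ 1 / 2 * (((K + j : ℕ) : ℝ) + 1) := by
      refine h.trans ?_
      push_cast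
      have : (0:ℝ) ≤ (j : ℝ) := Nat.cast_nonneg j
      linarith
    have h4 : (((K + j : ℕ) : ℝ) + 1) * ek P g (K + j + 1) ≤ (((K + j : ℕ) : ℝ) + 1) * (1 / 2 * ek P g (K + j)) := by
      calc _ ≤ (∑ p ∈ P, g p) * ek P g (K + j) := h1
        _ ≤ (1 / 2 * (((K + j : ℕ) : ℝ) + 1)) * ek P g (K + j) := mul_le_mul_of_nonneg_right h2 h3
        _ = _ := by ring
    have h5 : ek P g (K + j + 1) ≤ 1 / 2 * ek P g (K + j) := le_of_mul_le_mul_left h4 hK
    calc ek P g (K + (j + 1)) = ek P g (K + j + 1) := by rw [add_assoc]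
      _ ≤ 1 / 2 * ek P g (K + j) := h5
      _ ≤ 1 / 2 * ((1 / 2) ^ j * ek P g K) := by linarith
      _ = (1 / 2) ^ (j + 1) * ek P g K := by ring

theorem A_tail {P : Finset ℕ} {g : ℕ → ℝ} (hg : ∀ p ∈ P, 0 ≤ g p) {K : ℕ}
    (h : ∑ p ∈ P, g p ≤ 1 / 2 * ((K : ℝ) + 1)) (j : ℕ) :
    A P g (K + j) ≤ A P g K + (1 - (1 / 2) ^ j) * ek P g K := by
  induction j with
  | zero => simp
  | succ j ih =>
    have h1 := ek_tail hg h (j + 1)
    have h2 : A P g (K + (j + 1)) = A P g (K + j) + ek P g (K + (j + 1)) := by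
      rw [← add_assoc, A_succ]
    rw [h2]
    have h3 : (1 / 2 : ℝ) ^ (j + 1) = (1 / 2) * (1 / 2) ^ j := by ring
    rw [h3] at h1 ⊢
    nlinarith [ek_nonneg hg K]

/-- The full product is at most twice the truncated one. -/
theorem prod_le_two_A {P : Finset ℕ} {g : ℕ → ℝ} (hg : ∀ p ∈ P, 0 ≤ g p) {K : ℕ}
    (h : ∑ p ∈ P, g p ≤ 1 / 2 * ((K : ℝ) + 1)) : ∏ p ∈ P, (1 + g p) ≤ 2 * A P g K := by
  have h1 : ∏ p ∈ P, (1 + g p) = A P g (K + P.card) := by
    rw [Finset.prod_one_add]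
    unfold A
    refine Finset.sum_congr rfl fun S hS => ?_
    rw [if_pos]
    have := Finset.card_le_card (Finset.mem_powerset.1 hS)
    omega
  have h2 := A_tail hg h P.card
  have h3 : ek P g K ≤ A P g K := by
    cases K with
    | zero => rw [ek_zero, A_zero]
    | succ K => rw [A_succ]; linarith [A_nonneg hg K]
  have h4 := ek_nonneg hg K
  have h5 : (0:ℝ) ≤ (1 / 2 : ℝ) ^ P.card := by positivity
  rw [h1]
  nlinarith

theorem A_insert {Q : Finset ℕ} {g : ℕ → ℝ} {p : ℕ} (hp : p ∉ Q) (K : ℕ) :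
    A (insert p Q) g (K + 1) = A Q g (K + 1) + g p * A Q g K := by
  unfold A
  rw [Finset.sum_powerset_insert hp, Finset.mul_sum]
  congr 1
  refine Finset.sum_congr rfl fun S hS => ?_
  have hpS : p ∉ S := fun h => hp (Finset.mem_powerset.1 hS h)
  rw [Finset.card_insert_of_notMem hpS, Finset.prod_insert hpS]
  by_cases h : S.card ≤ K
  · rw [if_pos (by omega), if_pos h]
  · rw [if_neg (by omega), if_neg h, mul_zero]

/-- Removing a prime and a factor. -/
theorem A_le_erase {P : Finset ℕ} {g : ℕ → ℝ} (hg : ∀ p ∈ P, 0 ≤ g p) {p : ℕ} (hp : p ∈ P) {K : ℕ} {ρ : ℝ}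
    (hρ : 0 ≤ ρ) (h : ∑ p ∈ P, g p ≤ ρ * ((K : ℝ) + 1)) :
    A P g (K + 1) ≤ (1 + ρ + g p) * A (P.erase p) g K := by
  have h1 := A_insert (Q := P.erase p) (g := g) (Finset.notMem_erase p P) K
  rw [Finset.insert_erase hp] at h1
  have hg' : ∀ q ∈ P.erase p, 0 ≤ g q := fun q hq => hg q (Finset.mem_of_mem_erase hq)
  have h2 : ∑ q ∈ P.erase p, g q ≤ ρ * ((K : ℝ) + 1) :=
    (Finset.sum_le_sum_of_subset_of_nonneg (Finset.erase_subset _ _) fun q hq _ => hg q hq).trans h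
  have h3 := ek_le_A hg' hρ h2
  rw [h1, A_succ]
  linarith

/-- From sums over integers to sums over sets of primes. -/
theorem sum_transfer {P : Finset ℕ} (hP : ∀ p ∈ P, p.Prime) {N : ℕ} (h : ℕ → ℝ)
    (h0 : ∀ n, h n ≠ 0 → n ∈ Finset.Icc 1 N ∧ Squarefree n ∧ n.primeFactors ⊆ P) :
    ∑ n ∈ Finset.Icc 1 N, h n = ∑ S ∈ P.powerset, h (∏ p ∈ S, p) := by
  have hpf : ∀ S ∈ P.powerset, (∏ p ∈ S, p).primeFactors = S := fun S hS =>
    Nat.primeFactors_prod fun p hp => hP p (Finset.mem_powerset.1 hS hp)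
  have hinj : Set.InjOn (fun S : Finset ℕ => ∏ p ∈ S, p) (P.powerset : Set (Finset ℕ)) := by
    intro S hS S' hS' he
    rw [← hpf S hS, ← hpf S' hS']
    simp only at he
    rw [he]
  have h1 : ∑ S ∈ P.powerset, h (∏ p ∈ S, p) = ∑ n ∈ P.powerset.image (fun S => ∏ p ∈ S, p), h n := by
    rw [Finset.sum_image hinj]
  rw [h1]
  refine Finset.sum_congr_of_eq_on_inter ?_ ?_ fun _ _ _ => rfl
  · intro n _ hn
    by_contra hne
    obtain ⟨_, hsq, hsub⟩ := h0 n hne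
    exact hn (Finset.mem_image.2 ⟨n.primeFactors, Finset.mem_powerset.2 hsub,
      Nat.prod_primeFactors_of_squarefree hsq⟩)
  · intro n _ hn
    by_contra hne
    exact hn (h0 n hne).1

end Pool.Agent.Helper36.UG
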