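import Pool.Agent.Helper69.UG.Defs
import Pool.Agent.Helper36.UG.Ek

/-! # UG, blocks R1, R2, R4, R5: the resonator -/

set_option autoImplicit false
open MeasureTheory Set Filter Topology
open Pool.Agent.Helper69.UG

namespace Pool.Agent.Helper36.UG

theorem PR_prime {T c : ℝ} : ∀ p ∈ PR T c, p.Prime := fun _ hp => (Finset.mem_filter.1 hp).2.1

theorem PR_le {T c : ℝ} (hT : 0 ≤ T) {p : ℕ} (hp : p ∈ PR T c) : (p : ℝ) ≤ T ^ (3 / (4 * c)) := by
  have h1 := Finset.mem_range.1 (Finset.mem_filter.1 hp).1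
  exact (Nat.le_floor_iff (Real.rpow_nonneg hT _)).1 (by omega)

open Classical in
theorem rr_ne {T c v : ℝ} {n : ℕ} (h : rr T c v n ≠ 0) :
    Squarefree n ∧ n.primeFactors ⊆ PR T c ∧ n.primeFactors.card ≤ KR c := by
  unfold rr at h
  by_contra hn
  rw [if_neg hn] at h
  exact h rfl

/-- R1 -/
theorem rr_supp {T c v : ℝ} (hT : 1 ≤ T) (hc : 0 < c) {n : ℕ} (h : rr T c v n ≠ 0) :
    1 ≤ n ∧ n ≤ NR T ∧ Squarefree n := by
  obtain ⟨hsq, hsub, hcard⟩ := rr_ne h
  refine ⟨Nat.one_le_iff_ne_zero.2 hsq.ne_zero, ?_, hsq⟩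
  have hT0 : (0:ℝ) ≤ T := by linarith
  refine Nat.le_floor ?_
  have h1 : (n : ℝ) = ∏ p ∈ n.primeFactors, (p : ℝ) := by
    rw [← Nat.cast_prod, Nat.prod_primeFactors_of_squarefree hsq]
  have h2 : ∏ p ∈ n.primeFactors, (p : ℝ) ≤ ∏ _p ∈ n.primeFactors, T ^ (3 / (4 * c)) :=
    Finset.prod_le_prod (fun p _ => Nat.cast_nonneg p) fun p hp => PR_le hT0 (hsub hp)
  rw [Finset.prod_const] at h2
  have h3 : (T ^ (3 / (4 * c))) ^ n.primeFactors.card ≤ T ^ (1 / 8 : ℝ) := by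
    rw [← Real.rpow_natCast, ← Real.rpow_mul hT0]
    refine Real.rpow_le_rpow_of_exponent_le hT ?_
    have h4 : (n.primeFactors.card : ℝ) ≤ c / 6 := by
      have h5 : (n.primeFactors.card : ℝ) ≤ (KR c : ℝ) := by exact_mod_cast hcard
      exact h5.trans (Nat.floor_le (by positivity))
    calc 3 / (4 * c) * (n.primeFactors.card : ℝ) ≤ 3 / (4 * c) * (c / 6) :=
          mul_le_mul_of_nonneg_left h4 (by positivity)
      _ = 1 / 8 := by field_simp; norm_num
  rw [h1]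
  exact h2.trans h3

/-- Basic size facts. -/
theorem adm_facts {c0 T c : ℝ} (hc0 : 1 ≤ c0) (hT : Real.exp (Real.exp 1) ≤ T) (h : Adm c0 T c) :
    1 ≤ T ∧ 1 ≤ c ∧ 1 ≤ Real.log (Real.log T) ∧ 2 ≤ Real.log T ∧ c ≤ Real.log T / 16 := by
  obtain ⟨h1, h2⟩ := h
  have hTpos : 0 < T := (Real.exp_pos _).trans_le hT
  have hL : Real.exp 1 ≤ Real.log T := (Real.le_log_iff_exp_le hTpos).2 hT
  have he : (2:ℝ) ≤ Real.exp 1 := by linarith [Real.add_one_le_exp (1:ℝ)]
  have hLpos : 0 < Real.log T := by linarith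
  have hLL : 1 ≤ Real.log (Real.log T) := (Real.le_log_iff_exp_le hLpos).2 hL
  have hT1 : 1 ≤ T := by
    have : Real.exp 0 ≤ Real.exp (Real.exp 1) := Real.exp_le_exp.2 (by linarith)
    rw [Real.exp_zero] at this
    linarith
  have hc1 : 1 ≤ c := hc0.trans h1
  refine ⟨hT1, hc1, hLL, by linarith, ?_⟩
  nlinarith

theorem VV_eq {T c v : ℝ} (hT : 1 ≤ T) (hc : 0 < c) :
    VV T c v = A (PR T c) (fun p => v ^ 2 / p) (KR c) := by
  classical
  unfold VV A
  rw [sum_transfer (P := PR T c) PR_prime (fun n => rr T c v n ^ 2 / n)]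
  · refine Finset.sum_congr rfl fun S hS => ?_
    have hSP := Finset.mem_powerset.1 hS
    have hpr : ∀ p ∈ S, p.Prime := fun p hp => PR_prime p (hSP hp)
    have hpf : (∏ p ∈ S, p).primeFactors = S := Nat.primeFactors_prod hpr
    have hsq : Squarefree (∏ p ∈ S, p) := by
      refine Finset.squarefree_prod_of_pairwise_isCoprime ?_ fun p hp => (hpr p hp).squarefree
      intro p hp q hq hpq
      exact Nat.coprime_iff_isRelPrime.1 ((Nat.coprime_primes (hpr p hp) (hpr q hq)).2 hpq)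
    unfold rr
    rw [hpf]
    by_cases hk : S.card ≤ KR c
    · rw [if_pos ⟨hsq, hSP, hk⟩, if_pos hk, Finset.prod_div_distrib, Finset.prod_const, ← pow_mul, ← pow_mul,
        mul_comm]
      push_cast
      rfl
    · rw [if_neg (fun h => hk h.2.2), if_neg hk]
      simp
  · intro n hn
    have hn' : rr T c v n ≠ 0 := by
      intro h
      rw [h] at hn
      simp at hn
    obtain ⟨h1, h2, h3⟩ := rr_supp hT hc hn'
    exact ⟨Finset.mem_Icc.2 ⟨h1, h2⟩, h3, (rr_ne hn').2.1⟩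

theorem WP_eq {T c v : ℝ} (hT : 1 ≤ T) (hc : 0 < c) {p : ℕ} (hp : p ∈ PR T c) {K : ℕ} (hK : KR c = K + 1) :
    WP T c v p = v * A ((PR T c).erase p) (fun p => v ^ 2 / p) K := by
  classical
  have hpp : p.Prime := PR_prime p hp
  unfold WP A
  have hQ : ∀ q ∈ (PR T c).erase p, q.Prime := fun q hq => PR_prime q (Finset.mem_of_mem_erase hq)
  rw [sum_transfer (P := (PR T c).erase p) hQ (fun n => rr T c v n * rr T c v (p * n) / n), Finset.mul_sum]
  · refine Finset.sum_congr rfl fun S hS => ?_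
    have hSQ := Finset.mem_powerset.1 hS
    have hSP : S ⊆ PR T c := hSQ.trans (Finset.erase_subset _ _)
    have hpS : p ∉ S := fun h => Finset.notMem_erase p _ (hSQ h)
    have hpr : ∀ q ∈ S, q.Prime := fun q hq => PR_prime q (hSP hq)
    have hpr' : ∀ q ∈ insert p S, q.Prime := by
      intro q hq
      rcases Finset.mem_insert.1 hq with rfl | hq
      · exact hpp
      · exact hpr q hq
    have hsqg : ∀ S' : Finset ℕ, (∀ q ∈ S', q.Prime) → Squarefree (∏ q ∈ S', q) := by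
      intro S' h
      refine Finset.squarefree_prod_of_pairwise_isCoprime ?_ fun q hq => (h q hq).squarefree
      intro a ha b hb hab
      exact Nat.coprime_iff_isRelPrime.1 ((Nat.coprime_primes (h a ha) (h b hb)).2 hab)
    have hpf : (∏ q ∈ S, q).primeFactors = S := Nat.primeFactors_prod hpr
    have hins : p * ∏ q ∈ S, q = ∏ q ∈ insert p S, q := (Finset.prod_insert (f := fun q => q) hpS).symm
    have hpf' : (p * ∏ q ∈ S, q).primeFactors = insert p S := by
      rw [hins]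
      exact Nat.primeFactors_prod hpr'
    have hsq := hsqg S hpr
    have hsq' : Squarefree (p * ∏ q ∈ S, q) := by
      rw [hins]
      exact hsqg _ hpr'
    have hSP' : insert p S ⊆ PR T c := Finset.insert_subset hp hSP
    unfold rr
    rw [hpf, hpf', Finset.card_insert_of_notMem hpS, hK]
    by_cases hk : S.card ≤ K
    · rw [if_pos ⟨hsq, hSP, by omega⟩, if_pos ⟨hsq', hSP', by omega⟩, if_pos hk, Finset.prod_div_distrib,
        Finset.prod_const, ← pow_mul]
      push_cast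
      have : v ^ S.card * v ^ (S.card + 1) = v * v ^ (2 * S.card) := by ring
      rw [this, mul_div_assoc]
    · have h1 : ¬ (Squarefree (p * ∏ q ∈ S, q) ∧ insert p S ⊆ PR T c ∧ S.card + 1 ≤ K + 1) := fun h => by
        have := h.2.2
        omega
      rw [if_neg h1, if_neg hk]
      simp
  · intro n hn
    have hn1 : rr T c v n ≠ 0 := by
      intro h
      simp only [h, zero_mul, zero_div, ne_eq, not_true_eq_false] at hn
    have hn2 : rr T c v (p * n) ≠ 0 := by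
      intro h
      simp only [h, mul_zero, zero_div, ne_eq, not_true_eq_false] at hn
    obtain ⟨h1, h2, h3⟩ := rr_supp hT hc hn1
    refine ⟨Finset.mem_Icc.2 ⟨h1, h2⟩, h3, ?_⟩
    intro q hq
    refine Finset.mem_erase.2 ⟨?_, (rr_ne hn1).2.1 hq⟩
    rintro rfl
    have hdvd : q ∣ n := Nat.dvd_of_mem_primeFactors hq
    have hsq := (rr_ne hn2).1
    have := hsq q (Nat.mul_dvd_mul_left q hdvd)
    exact hpp.one_lt.ne' (Nat.isUnit_iff.1 this)

/-- R2 -/
theorem rr_bd : ∃ c0 T0 : ℝ, ∀ T, T0 ≤ T → ∀ c, Adm c0 T c → ∀ v : ℝ, v ^ 2 = c / 100 → ∀ n,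
    |rr T c v n| ≤ T ^ (1 / 192 : ℝ) ∧ 1 ≤ VV T c v := by
  classical
  refine ⟨1, Real.exp (Real.exp 1), fun T hT c hA v hv n => ?_⟩
  obtain ⟨hT1, hc1, hLL, hL, hcL⟩ := adm_facts le_rfl hT hA
  have hTpos : (0:ℝ) < T := by linarith
  have hcpos : (0:ℝ) < c := by linarith
  constructor
  · have hT192 : (1:ℝ) ≤ T ^ (1 / 192 : ℝ) := Real.one_le_rpow hT1 (by norm_num)
    by_cases h : rr T c v n = 0
    · rw [h, abs_zero]
      linarith
    · obtain ⟨h1, h2, h3⟩ := rr_ne h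
      have h4 : rr T c v n = v ^ n.primeFactors.card := by
        unfold rr
        rw [if_pos ⟨h1, h2, h3⟩]
      rw [h4, abs_pow]
      rcases le_or_gt |v| 1 with hv1 | hv1
      · exact (pow_le_one₀ (abs_nonneg v) hv1).trans hT192
      · have h5 : (n.primeFactors.card : ℝ) ≤ c / 6 := by
          have h5 : (n.primeFactors.card : ℝ) ≤ (KR c : ℝ) := by exact_mod_cast h3
          exact h5.trans (Nat.floor_le (by positivity))
        have h6 : |v| ^ n.primeFactors.card ≤ |v| ^ (c / 6) := by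
          rw [← Real.rpow_natCast]
          exact Real.rpow_le_rpow_of_exponent_le hv1.le h5
        refine h6.trans ?_
        have hvpos : 0 < |v| := by linarith
        rw [Real.rpow_def_of_pos hvpos, Real.rpow_def_of_pos hTpos]
        refine Real.exp_le_exp.2 ?_
        have h7 : 2 * Real.log |v| = Real.log (c / 100) := by
          rw [← hv, ← sq_abs v, Real.log_pow]
          norm_num
        have h8 : Real.log (c / 100) ≤ Real.log (Real.log T) :=
          Real.log_le_log (by positivity) (by linarith)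
        have h9 := hA.2
        have h10 : Real.log |v| ≤ Real.log (Real.log T) / 2 := by linarith
        calc Real.log |v| * (c / 6) ≤ Real.log (Real.log T) / 2 * (c / 6) :=
              mul_le_mul_of_nonneg_right h10 (by positivity)
          _ = (c * Real.log (Real.log T)) / 12 := by ring
          _ ≤ (Real.log T / 16) / 12 := by linarith
          _ = Real.log T * (1 / 192) := by ring
  · rw [VV_eq hT1 hcpos]
    exact one_le_A (fun p _ => by positivity) _

/-- The statement of R3. -/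
def R3 : Prop := ∃ c0 T0 : ℝ, ∀ T, T0 ≤ T → ∀ c, Adm c0 T c →
    (∀ p ∈ PR T c, p.Prime ∧ Real.log T ^ 4 < p ∧ XX T c / 4 < Real.log p ∧ Real.log p ≤ 3 / 4 * XX T c) ∧
    1 / 2 ≤ ∑ p ∈ PR T c, (1 / p : ℝ) ∧ ∑ p ∈ PR T c, (1 / p : ℝ) ≤ 2

theorem Adm.mono {c0 c1 T c : ℝ} (h : c1 ≤ c0) (hA : Adm c0 T c) : Adm c1 T c := ⟨h.trans hA.1, hA.2⟩

/-- R4 from R3. -/
theorem WP_bd_of (hR3 : R3) : ∃ c0 T0 : ℝ, ∀ T, T0 ≤ T → ∀ c, Adm c0 T c → ∀ v : ℝ, v ^ 2 = c / 100 → ∀ p ∈ PR T c,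
    v ^ 2 / 2 * VV T c v ≤ v * WP T c v p ∧ |WP T c v p| ≤ |v| * VV T c v := by
  obtain ⟨c3, T3, h3⟩ := hR3
  refine ⟨max 12 c3, max T3 (Real.exp (Real.exp 1)), fun T hT c hA v hv p hp => ?_⟩
  have hA1 : Adm c3 T c := Adm.mono (le_max_right _ _) hA
  have hA2 : Adm 12 T c := Adm.mono (le_max_left _ _) hA
  obtain ⟨hT1, hc1, hLL, hL, hcL⟩ := adm_facts (c0 := 12) (by norm_num) ((le_max_right _ _).trans hT) hA2
  obtain ⟨hPR, _, hsum⟩ := h3 T ((le_max_left _ _).trans hT) c hA1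
  have hc12 : (12:ℝ) ≤ c := hA2.1
  have hcpos : (0:ℝ) < c := by linarith
  obtain ⟨K, hK⟩ : ∃ K, KR c = K + 1 := by
    have h1 : 2 ≤ KR c := Nat.le_floor (by push_cast; linarith)
    exact ⟨KR c - 1, by omega⟩
  have hKc : c / 6 < (K : ℝ) + 2 := by
    have h1 : c / 6 < (KR c : ℝ) + 1 := Nat.lt_floor_add_one _
    rw [hK] at h1
    push_cast at h1
    linarith
  set g : ℕ → ℝ := fun p => v ^ 2 / p with hg
  have hg0 : ∀ q ∈ PR T c, 0 ≤ g q := fun q _ => by simp only [hg]; positivity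
  have hgsum : ∑ q ∈ PR T c, g q ≤ 1 / 4 * ((K : ℝ) + 1) := by
    have h1 : ∑ q ∈ PR T c, g q = v ^ 2 * ∑ q ∈ PR T c, (1 / q : ℝ) := by
      rw [Finset.mul_sum]
      exact Finset.sum_congr rfl fun q _ => by simp only [hg]; ring
    rw [h1, hv]
    nlinarith
  have hgp : g p ≤ 1 / 100 := by
    obtain ⟨_, h1, _, _⟩ := hPR p hp
    have hL4 : Real.log T ≤ Real.log T ^ 4 := by
      have : (1:ℝ) ≤ Real.log T := by linarith
      exact le_self_pow₀ this (by norm_num)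
    have hppos : (0:ℝ) < p := by linarith
    simp only [hg]
    rw [hv, div_div, div_le_div_iff₀ (by positivity) (by norm_num)]
    nlinarith
  have hV := VV_eq (v := v) hT1 hcpos
  have hW := WP_eq (v := v) hT1 hcpos hp hK
  rw [hK] at hV
  have h1 := A_le_erase hg0 hp (by norm_num : (0:ℝ) ≤ 1 / 4) hgsum
  have hg' : ∀ q ∈ (PR T c).erase p, 0 ≤ g q := fun q hq => hg0 q (Finset.mem_of_mem_erase hq)
  have hA0 := A_nonneg hg' K
  have h2 : A ((PR T c).erase p) g K ≤ A (PR T c) g (K + 1) := by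
    have h3 := A_insert (Q := (PR T c).erase p) (g := g) (Finset.notMem_erase p _) K
    rw [Finset.insert_erase hp, A_succ ((PR T c).erase p)] at h3
    have h4 := ek_nonneg hg' (K + 1)
    have h5 := mul_nonneg (hg0 p hp) hA0
    linarith
  rw [hV, hW]
  constructor
  · have h3 : A (PR T c) g (K + 1) ≤ 2 * A ((PR T c).erase p) g K := by
      refine h1.trans (mul_le_mul_of_nonneg_right ?_ hA0)
      linarith
    have h4 : 0 ≤ v ^ 2 := sq_nonneg v
    calc v ^ 2 / 2 * A (PR T c) g (K + 1) ≤ v ^ 2 / 2 * (2 * A ((PR T c).erase p) g K) :=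
          mul_le_mul_of_nonneg_left h3 (by positivity)
      _ = v * (v * A ((PR T c).erase p) g K) := by ring
  · rw [abs_mul, abs_of_nonneg hA0]
    exact mul_le_mul_of_nonneg_left h2 (abs_nonneg v)

/-- R5 from R3. -/
theorem prod_le_VV_of (hR3 : R3) : ∃ C c0 T0 : ℝ, 0 < C ∧ ∀ T, T0 ≤ T → ∀ c, Adm c0 T c → ∀ v : ℝ, v ^ 2 = c / 100 →
    ∏ p ∈ PR T c, (1 + (2 + |v|) ^ 2 / p + 2 * (2 + 2 * |v|) ^ 2 / p ^ 2) ≤ C * Real.exp (C * √c) * VV T c v := by
  obtain ⟨c3, T3, h3⟩ := hR3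
  refine ⟨2 * Real.exp 50, max 12 c3, max T3 (Real.exp (Real.exp 1)), by positivity, fun T hT c hA v hv => ?_⟩
  have hA1 : Adm c3 T c := Adm.mono (le_max_right _ _) hA
  have hA2 : Adm 12 T c := Adm.mono (le_max_left _ _) hA
  obtain ⟨hT1, hc1, hLL, hL, hcL⟩ := adm_facts (c0 := 12) (by norm_num) ((le_max_right _ _).trans hT) hA2
  obtain ⟨hPR, _, hsum⟩ := h3 T ((le_max_left _ _).trans hT) c hA1
  have hc12 : (12:ℝ) ≤ c := hA2.1
  have hcpos : (0:ℝ) < c := by linarith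
  set L := Real.log T with hLdef
  have hL4 : L ^ 2 ≤ L ^ 4 := pow_le_pow_right₀ (by linarith) (by norm_num)
  have hL2 : L ≤ L ^ 2 := le_self_pow₀ (by linarith) (by norm_num)
  have hv2 : v ^ 2 ≤ L := by rw [hv]; linarith
  have habs : |v| ^ 2 = v ^ 2 := sq_abs v
  have h0v := abs_nonneg v
  set g : ℕ → ℝ := fun p => v ^ 2 / p with hg
  have hpos : ∀ p ∈ PR T c, (0:ℝ) < p := fun p hp => by exact_mod_cast (hPR p hp).1.pos
  have hg0 : ∀ q ∈ PR T c, 0 ≤ g q := fun q _ => by simp only [hg]; positivity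
  have hp1 : ∀ p ∈ PR T c, L ^ 4 ≤ (p : ℝ) := fun p hp => (hPR p hp).2.1.le
  -- `Σ 1/p² ≤ 2 / L²`
  have hsq : ∑ p ∈ PR T c, (1 / (p : ℝ) ^ 2) ≤ 2 / L ^ 4 := by
    calc ∑ p ∈ PR T c, (1 / (p : ℝ) ^ 2) ≤ ∑ p ∈ PR T c, 1 / L ^ 4 * (1 / (p : ℝ)) := by
          refine Finset.sum_le_sum fun p hp => ?_
          have h1 := hp1 p hp
          have h2 := hpos p hp
          have h3 : 1 / (p : ℝ) ^ 2 = 1 / (p : ℝ) * (1 / p) := by
            rw [pow_two]
            field_simp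
          rw [h3]
          exact mul_le_mul_of_nonneg_right (one_div_le_one_div_of_le (by positivity) h1) (by positivity)
      _ = 1 / L ^ 4 * ∑ p ∈ PR T c, (1 / p : ℝ) := by rw [Finset.mul_sum]
      _ ≤ 1 / L ^ 4 * 2 := mul_le_mul_of_nonneg_left hsum (by positivity)
      _ = 2 / L ^ 4 := by ring
  -- the product on the left
  have hleft : ∏ p ∈ PR T c, (1 + (2 + |v|) ^ 2 / p + 2 * (2 + 2 * |v|) ^ 2 / p ^ 2) ≤
      Real.exp (49 + 8 * |v| + ∑ p ∈ PR T c, g p) := by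
    have h1 : ∏ p ∈ PR T c, (1 + (2 + |v|) ^ 2 / p + 2 * (2 + 2 * |v|) ^ 2 / p ^ 2) ≤
        ∏ p ∈ PR T c, Real.exp ((2 + |v|) ^ 2 / p + 2 * (2 + 2 * |v|) ^ 2 / p ^ 2) := by
      refine Finset.prod_le_prod (fun p _ => by positivity) fun p _ => ?_
      have := Real.add_one_le_exp ((2 + |v|) ^ 2 / p + 2 * (2 + 2 * |v|) ^ 2 / (p : ℝ) ^ 2)
      linarith
    refine h1.trans ?_
    rw [← Real.exp_sum]
    refine Real.exp_le_exp.2 ?_
    rw [Finset.sum_add_distrib]
    have h2 : ∑ p ∈ PR T c, (2 + |v|) ^ 2 / (p : ℝ) = (4 + 4 * |v|) * ∑ p ∈ PR T c, (1 / p : ℝ) + ∑ p ∈ PR T c, g p := by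
      rw [Finset.mul_sum, ← Finset.sum_add_distrib]
      refine Finset.sum_congr rfl fun p hp => ?_
      simp only [hg]
      rw [← habs]
      ring
    have h3 : ∑ p ∈ PR T c, 2 * (2 + 2 * |v|) ^ 2 / (p : ℝ) ^ 2 = 8 * (1 + |v|) ^ 2 * ∑ p ∈ PR T c, (1 / (p : ℝ) ^ 2) := by
      rw [Finset.mul_sum]
      refine Finset.sum_congr rfl fun p hp => ?_
      ring
    rw [h2, h3]
    have h4 : (4 + 4 * |v|) * ∑ p ∈ PR T c, (1 / p : ℝ) ≤ (4 + 4 * |v|) * 2 :=
      mul_le_mul_of_nonneg_left hsum (by positivity)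
    have h5 : 8 * (1 + |v|) ^ 2 * ∑ p ∈ PR T c, (1 / (p : ℝ) ^ 2) ≤ 40 := by
      have h6 : (1 + |v|) ^ 2 ≤ 2 + 2 * v ^ 2 := by nlinarith [sq_nonneg (1 - |v|)]
      have h7 : 2 + 2 * v ^ 2 ≤ L + 2 * L := by linarith
      calc 8 * (1 + |v|) ^ 2 * ∑ p ∈ PR T c, (1 / (p : ℝ) ^ 2) ≤ 8 * (1 + |v|) ^ 2 * (2 / L ^ 4) :=
            mul_le_mul_of_nonneg_left hsq (by positivity)
        _ ≤ 8 * (3 * L) * (2 / L ^ 4) := by
            refine mul_le_mul_of_nonneg_right ?_ (by positivity)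
            linarith
        _ = 48 / L ^ 3 := by
            field_simp
            ring
        _ ≤ 40 := by
            rw [div_le_iff₀ (by positivity)]
            have : (2:ℝ) ^ 3 ≤ L ^ 3 := pow_le_pow_left₀ (by norm_num) hL 3
            nlinarith
    linarith
  -- the product on the right
  have hgsum : ∑ q ∈ PR T c, g q ≤ 1 / 2 * ((KR c : ℝ) + 1) := by
    have h1 : ∑ q ∈ PR T c, g q = v ^ 2 * ∑ q ∈ PR T c, (1 / q : ℝ) := by
      rw [Finset.mul_sum]
      exact Finset.sum_congr rfl fun q _ => by simp only [hg]; ring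
    have h2 : c / 6 < (KR c : ℝ) + 1 := Nat.lt_floor_add_one _
    rw [h1, hv]
    nlinarith
  have hright := prod_le_two_A hg0 hgsum
  have hexp : Real.exp (∑ p ∈ PR T c, g p) ≤ Real.exp 1 * ∏ p ∈ PR T c, (1 + g p) := by
    have h1 : ∀ p ∈ PR T c, Real.exp (g p) ≤ (1 + g p) * Real.exp (g p ^ 2) := by
      intro p hp
      have h2 := hp1 p hp
      have h3 := hpos p hp
      have h4 : g p ≤ 1 := by
        simp only [hg]
        rw [div_le_one h3]
        linarith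
      have h5 := Real.abs_exp_sub_one_sub_id_le (x := g p) (by rw [abs_of_nonneg (hg0 p hp)]; exact h4)
      have h6 := (abs_le.1 h5).2
      have h7 := Real.add_one_le_exp (g p ^ 2)
      have h8 := hg0 p hp
      nlinarith [sq_nonneg (g p)]
    have h2 : Real.exp (∑ p ∈ PR T c, g p) ≤ (∏ p ∈ PR T c, (1 + g p)) * Real.exp (∑ p ∈ PR T c, g p ^ 2) := by
      rw [Real.exp_sum, Real.exp_sum, ← Finset.prod_mul_distrib]
      exact Finset.prod_le_prod (fun p _ => (Real.exp_pos _).le) h1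
    have h3 : ∑ p ∈ PR T c, g p ^ 2 ≤ 1 := by
      have h4 : ∑ p ∈ PR T c, g p ^ 2 = v ^ 4 * ∑ p ∈ PR T c, (1 / (p : ℝ) ^ 2) := by
        rw [Finset.mul_sum]
        refine Finset.sum_congr rfl fun p hp => ?_
        simp only [hg]
        ring
      rw [h4]
      calc v ^ 4 * ∑ p ∈ PR T c, (1 / (p : ℝ) ^ 2) ≤ v ^ 4 * (2 / L ^ 4) :=
            mul_le_mul_of_nonneg_left hsq (by positivity)
        _ ≤ L ^ 2 * (2 / L ^ 4) := by
            refine mul_le_mul_of_nonneg_right ?_ (by positivity)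
            have : v ^ 4 = (v ^ 2) ^ 2 := by ring
            rw [this]
            exact pow_le_pow_left₀ (sq_nonneg v) hv2 2
        _ = 2 / L ^ 2 := by field_simp
        _ ≤ 1 := by
            rw [div_le_one (by positivity)]
            nlinarith
    have h5 : 0 ≤ ∏ p ∈ PR T c, (1 + g p) :=
      Finset.prod_nonneg fun p hp => by linarith [hg0 p hp]
    calc Real.exp (∑ p ∈ PR T c, g p) ≤ (∏ p ∈ PR T c, (1 + g p)) * Real.exp (∑ p ∈ PR T c, g p ^ 2) := h2
      _ ≤ (∏ p ∈ PR T c, (1 + g p)) * Real.exp 1 := mul_le_mul_of_nonneg_left (Real.exp_le_exp.2 h3) h5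
      _ = _ := mul_comm _ _
  rw [VV_eq hT1 hcpos]
  have hA0 := A_nonneg hg0 (KR c)
  have h1 : Real.exp (∑ p ∈ PR T c, g p) ≤ Real.exp 1 * (2 * A (PR T c) g (KR c)) :=
    hexp.trans (mul_le_mul_of_nonneg_left hright (Real.exp_pos _).le)
  have hvc : |v| = √c / 10 := by
    have h2 : (√c / 10) ^ 2 = c / 100 := by
      rw [div_pow, Real.sq_sqrt hcpos.le]
      norm_num
    have h3 : |v| ^ 2 = (√c / 10) ^ 2 := by rw [habs, hv, h2]
    exact (pow_left_inj₀ h0v (by positivity) (by norm_num)).1 h3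
  refine hleft.trans ?_
  have h2 : Real.exp (49 + 8 * |v| + ∑ p ∈ PR T c, g p) =
      Real.exp 49 * Real.exp (8 * |v|) * Real.exp (∑ p ∈ PR T c, g p) := by
    rw [Real.exp_add, Real.exp_add]
  rw [h2]
  have h3 : Real.exp (8 * |v|) ≤ Real.exp (2 * Real.exp 50 * √c) := by
    refine Real.exp_le_exp.2 ?_
    rw [hvc]
    have h4 : (51:ℝ) ≤ Real.exp 50 := by linarith [Real.add_one_le_exp (50:ℝ)]
    have h5 := Real.sqrt_nonneg c
    nlinarith
  calc Real.exp 49 * Real.exp (8 * |v|) * Real.exp (∑ p ∈ PR T c, g p)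
      ≤ Real.exp 49 * Real.exp (2 * Real.exp 50 * √c) * (Real.exp 1 * (2 * A (PR T c) g (KR c))) :=
        mul_le_mul (mul_le_mul_of_nonneg_left h3 (Real.exp_pos _).le) h1 (Real.exp_pos _).le (by positivity)
    _ = 2 * (Real.exp 49 * Real.exp 1) * Real.exp (2 * Real.exp 50 * √c) * A (PR T c) g (KR c) := by ring
    _ = 2 * Real.exp 50 * Real.exp (2 * Real.exp 50 * √c) * A (PR T c) g (KR c) := by
        rw [← Real.exp_add]
        norm_num

end Pool.Agent.Helper36.UG
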