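import Pool.Agent.Helper36.UG.Ek

/-!
# Rankin's trick for sums over squarefree numbers composed of a finite set of primes

`B P g N = ∑_{S ⊆ P, ∏ S ≤ N} ∏_{p ∈ S} g p`.
-/

set_option autoImplicit false

namespace Pool.Agent.Helper36.UG

open Finset

/-- Product truncated at `N`. -/
noncomputable def B (P : Finset ℕ) (g : ℕ → ℝ) (N : ℝ) : ℝ :=
  ∑ S ∈ P.powerset, if ∏ p ∈ S, (p : ℝ) ≤ N then ∏ p ∈ S, g p else 0

theorem B_nonneg {P : Finset ℕ} {g : ℕ → ℝ} (hg : ∀ p ∈ P, 0 ≤ g p) (N : ℝ) : 0 ≤ B P g N := by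
  unfold B
  refine Finset.sum_nonneg fun S hS => ?_
  split_ifs
  · exact Finset.prod_nonneg fun p hp => hg p (Finset.mem_powerset.1 hS hp)
  · exact le_rfl

theorem B_le {P : Finset ℕ} {g : ℕ → ℝ} (hg : ∀ p ∈ P, 0 ≤ g p) (N : ℝ) : B P g N ≤ ∏ p ∈ P, (1 + g p) := by
  rw [Finset.prod_one_add]
  unfold B
  refine Finset.sum_le_sum fun S hS => ?_
  split_ifs
  · exact le_rfl
  · exact Finset.prod_nonneg fun p hp => hg p (Finset.mem_powerset.1 hS hp)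

theorem B_mono {P : Finset ℕ} {g : ℕ → ℝ} (hg : ∀ p ∈ P, 0 ≤ g p) {N N' : ℝ} (h : N ≤ N') : B P g N ≤ B P g N' := by
  unfold B
  refine Finset.sum_le_sum fun S hS => ?_
  by_cases h1 : ∏ p ∈ S, (p : ℝ) ≤ N
  · rw [if_pos h1, if_pos (h1.trans h)]
  · rw [if_neg h1]
    split_ifs
    · exact Finset.prod_nonneg fun p hp => hg p (Finset.mem_powerset.1 hS hp)
    · exact le_rfl

theorem one_le_B {P : Finset ℕ} {g : ℕ → ℝ} (hg : ∀ p ∈ P, 0 ≤ g p) {N : ℝ} (hN : 1 ≤ N) : 1 ≤ B P g N := by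
  unfold B
  have h1 : (1:ℝ) = if ∏ p ∈ (∅ : Finset ℕ), (p : ℝ) ≤ N then ∏ p ∈ (∅ : Finset ℕ), g p else 0 := by
    rw [Finset.prod_empty, Finset.prod_empty, if_pos hN]
  rw [h1]
  refine Finset.single_le_sum (f := fun S : Finset ℕ => if ∏ p ∈ S, (p : ℝ) ≤ N then ∏ p ∈ S, g p else 0)
    (fun S hS => ?_) (Finset.empty_mem_powerset P)
  split_ifs
  · exact Finset.prod_nonneg fun p hp => hg p (Finset.mem_powerset.1 hS hp)
  · exact le_rfl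

/-- Rankin. -/
theorem rankin {P : Finset ℕ} {g : ℕ → ℝ} (hg : ∀ p ∈ P, 0 ≤ g p) {N α : ℝ} (hN : 0 < N) (hα : 0 ≤ α) :
    ∏ p ∈ P, (1 + g p) - N ^ (-α) * ∏ p ∈ P, (1 + g p * (p : ℝ) ^ α) ≤ B P g N := by
  rw [Finset.prod_one_add, Finset.prod_one_add, Finset.mul_sum, ← Finset.sum_sub_distrib]
  unfold B
  refine Finset.sum_le_sum fun S hS => ?_
  have h0 : 0 ≤ ∏ p ∈ S, g p := Finset.prod_nonneg fun p hp => hg p (Finset.mem_powerset.1 hS hp)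
  have hp0 : 0 ≤ ∏ p ∈ S, (p : ℝ) := Finset.prod_nonneg fun p _ => Nat.cast_nonneg p
  have h1 : ∏ p ∈ S, (g p * (p : ℝ) ^ α) = (∏ p ∈ S, g p) * (∏ p ∈ S, (p : ℝ)) ^ α := by
    rw [Finset.prod_mul_distrib, Real.finsetProd_rpow _ _ fun p _ => Nat.cast_nonneg p]
  rw [h1]
  split_ifs with h2
  · have : 0 ≤ N ^ (-α) * ((∏ p ∈ S, g p) * (∏ p ∈ S, (p : ℝ)) ^ α) := by positivity
    linarith
  · have h3 : 1 ≤ N ^ (-α) * (∏ p ∈ S, (p : ℝ)) ^ α := by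
      rw [Real.rpow_neg hN.le, ← div_eq_inv_mul, one_le_div (Real.rpow_pos_of_pos hN α)]
      exact Real.rpow_le_rpow hN.le (not_le.1 h2).le hα
    nlinarith

/-- The weighted product. -/
theorem prod_rpow_le {P : Finset ℕ} (hP : ∀ p ∈ P, 1 ≤ p) {g : ℕ → ℝ} (hg : ∀ p ∈ P, 0 ≤ g p) {α : ℝ} (hα : 0 ≤ α) :
    ∏ p ∈ P, (1 + g p * (p : ℝ) ^ α) ≤ (∏ p ∈ P, (1 + g p)) * Real.exp (∑ p ∈ P, g p * ((p : ℝ) ^ α - 1)) := by
  rw [Real.exp_sum, ← Finset.prod_mul_distrib]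
  refine Finset.prod_le_prod (fun p hp => ?_) fun p hp => ?_
  · have := hg p hp
    positivity
  · have h1 : (1:ℝ) ≤ (p : ℝ) ^ α := Real.one_le_rpow (by exact_mod_cast hP p hp) hα
    have h2 := hg p hp
    have h3 := Real.add_one_le_exp (g p * ((p : ℝ) ^ α - 1))
    have h4 : 0 ≤ g p * ((p : ℝ) ^ α - 1) := mul_nonneg h2 (by linarith)
    calc 1 + g p * (p : ℝ) ^ α = (1 + g p) + g p * ((p : ℝ) ^ α - 1) := by ring
      _ ≤ (1 + g p) * (g p * ((p : ℝ) ^ α - 1) + 1) := by nlinarith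
      _ ≤ _ := mul_le_mul_of_nonneg_left h3 (by linarith)

/-- If the exponent `∑ g (p^α - 1) - α log N` is at most `-log(1/δ)`, all but `δ` of the product is in the truncated product. -/
theorem B_ge {P : Finset ℕ} (hP : ∀ p ∈ P, 1 ≤ p) {g : ℕ → ℝ} (hg : ∀ p ∈ P, 0 ≤ g p) {N α δ : ℝ} (hN : 0 < N) (hα : 0 ≤ α)
    (h : Real.exp (∑ p ∈ P, g p * ((p : ℝ) ^ α - 1) - α * Real.log N) ≤ δ) : (1 - δ) * ∏ p ∈ P, (1 + g p) ≤ B P g N := by
  have h1 := rankin hg hN hα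
  have h2 := prod_rpow_le hP hg hα
  have h3 : 0 < ∏ p ∈ P, (1 + g p) := Finset.prod_pos fun p hp => by linarith [hg p hp]
  have h4 : N ^ (-α) * ∏ p ∈ P, (1 + g p * (p : ℝ) ^ α) ≤ δ * ∏ p ∈ P, (1 + g p) := by
    calc N ^ (-α) * ∏ p ∈ P, (1 + g p * (p : ℝ) ^ α) ≤
          N ^ (-α) * ((∏ p ∈ P, (1 + g p)) * Real.exp (∑ p ∈ P, g p * ((p : ℝ) ^ α - 1))) :=
          mul_le_mul_of_nonneg_left h2 (Real.rpow_nonneg hN.le _)
      _ = Real.exp (∑ p ∈ P, g p * ((p : ℝ) ^ α - 1) - α * Real.log N) * ∏ p ∈ P, (1 + g p) := by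
          have h5 : Real.exp (-(α * Real.log N)) = N ^ (-α) := by
            rw [Real.rpow_def_of_pos hN]
            congr 1
            ring
          rw [sub_eq_add_neg, Real.exp_add, h5]
          ring
      _ ≤ δ * ∏ p ∈ P, (1 + g p) := mul_le_mul_of_nonneg_right h h3.le
  linarith

end Pool.Agent.Helper36.UG
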